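import Mathlib
import Pool.Agent.Q290.SSq.Defs
import Pool.Agent.Q290.SSq.Limit

set_option autoImplicit false

open Filter Topology Pool.Agent.Q290.SSq

namespace Pool.Agent.Results.MP_e74ce2_co.LargeAlphabetGrowth

/-- The exponential growth rate `L k` of the number of shuffle squares over `k` letters exists for
every `k ≥ 1`, and `L k = 4 k - 2 - o(1)` as `k → ∞`. -/
theorem result :
    ∃ L : ℕ → ℝ,
      (∀ k : ℕ, 1 ≤ k →
        Tendsto (fun n : ℕ => (numSS k n : ℝ) ^ (1 / (n : ℝ))) atTop (𝓝 (L k))) ∧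
      Tendsto (fun k : ℕ => 4 * (k : ℝ) - 2 - L k) atTop (𝓝 0) :=
  ⟨LL, fun _ hk => tendsto_LL hk, tendsto_gap⟩

end Pool.Agent.Results.MP_e74ce2_co.LargeAlphabetGrowth
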